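import Pool.Agent.W123.RU.Poly

/-!
# The system `2 ^ j X + 1`, `j < k`
-/

set_option autoImplicit false

namespace Pool.Agent.NH85.MQ

open Polynomial
open Pool.Agent.W123.RU.Poly (Sys)

/-- the polynomials `2 ^ j X + 1` -/
noncomputable def CF (k : ℕ) : Fin k → ℤ[X] := fun j => C (2 ^ (j : ℕ)) * X + C 1

lemma CF_eval {k : ℕ} (j : Fin k) (n : ℤ) : (CF k j).eval n = 2 ^ (j : ℕ) * n + 1 := by
  unfold CF
  rw [eval_add, eval_mul, eval_C, eval_X, eval_C]

lemma CF_evalN {k : ℕ} (j : Fin k) (n : ℕ) :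
    (CF k j).eval (n : ℤ) = ((2 ^ (j : ℕ) * n + 1 : ℕ) : ℤ) := by
  rw [CF_eval]
  push_cast
  ring

lemma CF_ndeg {k : ℕ} (j : Fin k) : (CF k j).natDegree = 1 :=
  natDegree_linear (pow_ne_zero _ (by norm_num))

lemma CF_lead {k : ℕ} (j : Fin k) : (CF k j).leadingCoeff = 2 ^ (j : ℕ) :=
  leadingCoeff_linear (pow_ne_zero _ (by norm_num))

lemma CF_irr {k : ℕ} (j : Fin k) : Irreducible (CF k j) := by
  apply irreducible_of_degree_eq_one_of_isRelPrime_coeff
  · exact degree_linear (pow_ne_zero _ (by norm_num))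
  · have h2 : (CF k j).coeff 0 = 1 := by
      unfold CF
      simp
    rw [h2]
    exact isRelPrime_one_left

theorem CF_sys (k : ℕ) : Sys (CF k) := by
  refine ⟨CF_irr, fun j => ?_, fun j => ?_, ?_, ?_⟩
  · rw [CF_ndeg]; exact one_pos
  · rw [CF_lead]; positivity
  · intro i j hij
    have h : (CF k i).leadingCoeff = (CF k j).leadingCoeff := by rw [hij]
    rw [CF_lead, CF_lead] at h
    apply Fin.ext
    exact Nat.pow_right_injective le_rfl (by exact_mod_cast h)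
  · intro p hp
    refine ⟨0, fun j => ?_⟩
    rw [CF_evalN]
    norm_num
    intro h
    have h1 : p ∣ 1 := by exact_mod_cast h
    exact hp.one_lt.ne' (Nat.dvd_one.1 h1)

/-- divisibility of one of the values -/
lemma CF_dvd {k : ℕ} (q n : ℕ) : (∃ j, (q : ℤ) ∣ (CF k j).eval (n : ℤ)) ↔
    ∃ j < k, q ∣ 2 ^ j * n + 1 := by
  constructor
  · rintro ⟨j, hj⟩
    rw [CF_evalN] at hj
    exact ⟨j, j.2, Int.natCast_dvd_natCast.1 hj⟩
  · rintro ⟨j, hj, hd⟩
    refine ⟨⟨j, hj⟩, ?_⟩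
    rw [CF_evalN]
    exact Int.natCast_dvd_natCast.2 hd

end Pool.Agent.NH85.MQ
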