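import Pool.Agent.NH85.MQ.Cun
import Pool.Agent.X69.Ric.SysA

/-!
# Almost prime values of the system `2 ^ j X + 1`, `j < k`
-/

set_option autoImplicit false

namespace Pool.Agent.NH85.MQ

/-- the almost prime set of the system -/
lemma CF_almost {k R n : ℕ} (hn : n ∈ Pool.Agent.X69.Ric.AA (CF k) R) :
    (∀ j < k, (2 ^ j * n + 1).primeFactorsList.length ≤ R) ∧
      ∀ j < k, ∀ q : ℕ, q.Prime → q ∣ 2 ^ j * n + 1 → (n : ℝ) ^ (1 / (R : ℝ)) < q := by
  refine ⟨fun j hj => ?_, fun j hj q hq hd => ?_⟩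
  · have h := (hn ⟨j, hj⟩).1
    rw [CF_evalN, Int.natAbs_natCast, ArithmeticFunction.cardFactors_apply] at h
    exact h
  · have h := (hn ⟨j, hj⟩).2 q hq
    rw [CF_evalN] at h
    exact h (Int.natCast_dvd_natCast.2 hd)

end Pool.Agent.NH85.MQ
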