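import Pool.Agent.W123.RU.Poly

/-!
# The system `X ^ 2 + 1`, `X ^ 2 + 3`
-/

set_option autoImplicit false

namespace Pool.Agent.NH85.MQ

open Polynomial
open Pool.Agent.W123.RU.Poly (Sys)

/-- the two polynomials -/
noncomputable def FF : Fin 2 → ℤ[X] := ![X ^ 2 + C 1, X ^ 2 + C 3]

lemma FF0 : FF 0 = X ^ 2 + C 1 := rfl

lemma FF1 : FF 1 = X ^ 2 + C 3 := rfl

lemma eval0 (n : ℤ) : (FF 0).eval n = n ^ 2 + 1 := by
  rw [FF0, eval_add, eval_pow, eval_X, eval_C]

lemma eval1 (n : ℤ) : (FF 1).eval n = n ^ 2 + 3 := by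
  rw [FF1, eval_add, eval_pow, eval_X, eval_C]

lemma monic (a : ℤ) : (X ^ 2 + C a : ℤ[X]).Monic := monic_X_pow_add_C a (by norm_num)

lemma ndeg (a : ℤ) : (X ^ 2 + C a : ℤ[X]).natDegree = 2 := natDegree_X_pow_add_C

lemma irr (a : ℤ) (ha : 0 < a) : Irreducible (X ^ 2 + C a : ℤ[X]) := by
  have hm := monic a
  rw [Monic.irreducible_iff_roots_eq_zero_of_degree_le_three hm (by rw [ndeg]) (by rw [ndeg]; norm_num)]
  rw [Multiset.eq_zero_iff_forall_notMem]
  intro x hx
  rw [mem_roots hm.ne_zero, IsRoot.def, eval_add, eval_pow, eval_X, eval_C] at hx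
  nlinarith [sq_nonneg x]

theorem sys : Sys FF := by
  refine ⟨?_, ?_, ?_, ?_, ?_⟩
  · intro i
    fin_cases i
    · exact irr 1 one_pos
    · exact irr 3 (by norm_num)
  · intro i
    fin_cases i
    · show 0 < (X ^ 2 + C 1 : ℤ[X]).natDegree
      rw [ndeg]; norm_num
    · show 0 < (X ^ 2 + C 3 : ℤ[X]).natDegree
      rw [ndeg]; norm_num
  · intro i
    fin_cases i
    · show 0 < (X ^ 2 + C 1 : ℤ[X]).leadingCoeff
      rw [(monic 1).leadingCoeff]; norm_num
    · show 0 < (X ^ 2 + C 3 : ℤ[X]).leadingCoeff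
      rw [(monic 3).leadingCoeff]; norm_num
  · intro i j hij
    have h : (FF i).eval 0 = (FF j).eval 0 := by rw [hij]
    fin_cases i <;> fin_cases j
    · rfl
    · exfalso
      have h' : (FF 0).eval 0 = (FF 1).eval 0 := h
      rw [eval0, eval1] at h'
      norm_num at h'
    · exfalso
      have h' : (FF 1).eval 0 = (FF 0).eval 0 := h
      rw [eval0, eval1] at h'
      norm_num at h'
    · rfl
  · intro p hp
    by_cases h3 : p = 3
    · refine ⟨1, fun i => ?_⟩
      subst h3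
      fin_cases i
      · show ¬ ((3 : ℕ) : ℤ) ∣ (FF 0).eval ((1 : ℕ) : ℤ)
        rw [eval0]; norm_num
      · show ¬ ((3 : ℕ) : ℤ) ∣ (FF 1).eval ((1 : ℕ) : ℤ)
        rw [eval1]; norm_num
    · refine ⟨0, fun i => ?_⟩
      fin_cases i
      · show ¬ (p : ℤ) ∣ (FF 0).eval ((0 : ℕ) : ℤ)
        rw [eval0]
        norm_num
        intro h
        have h1 : p ∣ 1 := by exact_mod_cast h
        exact hp.one_lt.ne' (Nat.dvd_one.1 h1)
      · show ¬ (p : ℤ) ∣ (FF 1).eval ((0 : ℕ) : ℤ)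
        rw [eval1]
        norm_num
        intro h
        have h5 : p ∣ 3 := by exact_mod_cast h
        exact h3 ((Nat.prime_dvd_prime_iff_eq hp Nat.prime_three).1 h5)

/-- divisibility of one of the values -/
lemma dvd_iff (q n : ℕ) : (∃ i, (q : ℤ) ∣ (FF i).eval (n : ℤ)) ↔ (q ∣ n ^ 2 + 1 ∨ q ∣ n ^ 2 + 3) := by
  rw [Fin.exists_fin_two, eval0, eval1]
  constructor
  · rintro (h | h)
    · left; exact_mod_cast h
    · right; exact_mod_cast h
  · rintro (h | h)
    · left; exact_mod_cast h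
    · right; exact_mod_cast h

end Pool.Agent.NH85.MQ
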